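import Pool.Agent.H31.Sok

open Pool.Agent.H31.Sok

theorem Pool.Agent.Results.MP_a45b15_gt.Neg.result :
    ∃ (X Y : Type) (_ : TopologicalSpace X) (_ : TopologicalSpace Y) (f : X → Y),
      T35Space X ∧ T35Space Y ∧ Continuous f ∧ Function.Surjective f ∧ MSok X ∧ MSokW X ∧
        ¬ MSok Y ∧ ¬ MSokW Y :=
  main2
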